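import Pool.Agent.W2helper35.QF.Stm

/-!
Project QF (helper35), piece COEF: polynomial functions of a matrix and tensor powers.
-/

set_option autoImplicit false

namespace Pool.Agent.W2helper24.QF

open Pool.Agent.W2helper35.QF Pool.Agent.W528.ZC

variable {Ω : Type} [Field Ω] {ι : Type} [Fintype ι] [DecidableEq ι]

/-- one degree -/
noncomputable def sm (d : ℕ) (C : Matrix (Fin d → ι) (Fin d → ι) Ω) (x : Matrix ι ι Ω) : Ω :=
  ∑ a, ∑ b, C a b * kp d x a b

theorem sm_zero (d : ℕ) (x : Matrix ι ι Ω) : sm d 0 x = 0 := by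
  simp [sm]

theorem sm_add (d : ℕ) (C D : Matrix (Fin d → ι) (Fin d → ι) Ω) (x : Matrix ι ι Ω) :
    sm d (C + D) x = sm d C x + sm d D x := by
  simp only [sm, Matrix.add_apply, add_mul, Finset.sum_add_distrib]

/-- the statement for one function -/
def Good (F : Matrix ι ι Ω → Ω) : Prop :=
  ∃ (N : ℕ) (C : ∀ d : ℕ, Matrix (Fin d → ι) (Fin d → ι) Ω), ∀ x : Matrix ι ι Ω,
    F x = ∑ d ∈ Finset.range N, sm d (C d) x

theorem extend {F : Matrix ι ι Ω → Ω} {N : ℕ} {C : ∀ d : ℕ, Matrix (Fin d → ι) (Fin d → ι) Ω}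
    (h : ∀ x, F x = ∑ d ∈ Finset.range N, sm d (C d) x) {N' : ℕ} (hN : N ≤ N') :
    ∀ x, F x = ∑ d ∈ Finset.range N', sm d (if d < N then C d else 0) x := by
  intro x
  rw [h x]
  have h1 : ∑ d ∈ Finset.range N, sm d (C d) x =
      ∑ d ∈ Finset.range N, sm d (if d < N then C d else 0) x :=
    Finset.sum_congr rfl fun d hd => by rw [if_pos (Finset.mem_range.1 hd)]
  rw [h1]
  apply Finset.sum_subset (Finset.range_mono hN)
  intro d _ hd
  rw [if_neg (fun h => hd (Finset.mem_range.2 h)), sm_zero]

theorem Good.add {F G : Matrix ι ι Ω → Ω} (hF : Good F) (hG : Good G) :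
    Good fun x => F x + G x := by
  obtain ⟨N, C, h⟩ := hF
  obtain ⟨M, D, h'⟩ := hG
  refine ⟨max N M, fun d => (if d < N then C d else 0) + (if d < M then D d else 0), fun x => ?_⟩
  show F x + G x = _
  rw [extend h (le_max_left N M) x, extend h' (le_max_right N M) x, ← Finset.sum_add_distrib]
  exact Finset.sum_congr rfl fun d _ => (sm_add _ _ _ _).symm

theorem Good.const (c : Ω) : Good fun _ : Matrix ι ι Ω => c := by
  refine ⟨1, fun _ => fun _ _ => c, fun x => ?_⟩
  rw [Finset.sum_range_one, sm, Fintype.sum_unique, Fintype.sum_unique]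
  simp [kp]

/-- raise the degree by one variable -/
def up (i j : ι) : (d : ℕ) → (∀ d : ℕ, Matrix (Fin d → ι) (Fin d → ι) Ω) →
    Matrix (Fin d → ι) (Fin d → ι) Ω
  | 0, _ => 0
  | d + 1, C => fun a b => if a 0 = i ∧ b 0 = j then C d (Fin.tail a) (Fin.tail b) else 0

theorem sm_up (i j : ι) (d : ℕ) (C : ∀ d : ℕ, Matrix (Fin d → ι) (Fin d → ι) Ω)
    (x : Matrix ι ι Ω) : sm (d + 1) (up i j (d + 1) C) x = sm d (C d) x * x i j := by
  unfold sm
  rw [← (Fin.consEquiv fun _ : Fin (d + 1) => ι).sum_comp, Fintype.sum_prod_type]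
  have h1 : ∀ (p : ι) (a : Fin d → ι),
      ∑ b, up i j (d + 1) C ((Fin.consEquiv fun _ : Fin (d + 1) => ι) (p, a)) b *
        kp (d + 1) x ((Fin.consEquiv fun _ : Fin (d + 1) => ι) (p, a)) b =
      if p = i then (∑ b, C d a b * kp d x a b) * x i j else 0 := by
    intro p a
    rw [← (Fin.consEquiv fun _ : Fin (d + 1) => ι).sum_comp, Fintype.sum_prod_type]
    by_cases hp : p = i
    · rw [if_pos hp, Finset.sum_eq_single j]
      · rw [Finset.sum_mul]
        refine Finset.sum_congr rfl fun b _ => ?_
        have h2 : up i j (d + 1) C ((Fin.consEquiv fun _ : Fin (d + 1) => ι) (p, a))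
            ((Fin.consEquiv fun _ : Fin (d + 1) => ι) (j, b)) = C d a b := by
          show (if _ ∧ _ then _ else _) = _
          rw [if_pos ⟨hp, rfl⟩]
          rfl
        have h3 : kp (d + 1) x ((Fin.consEquiv fun _ : Fin (d + 1) => ι) (p, a))
            ((Fin.consEquiv fun _ : Fin (d + 1) => ι) (j, b)) = x i j * kp d x a b := by
          unfold kp
          rw [Fin.prod_univ_succ]
          subst hp
          rfl
        rw [h2, h3]
        ring
      · intro q _ hq
        refine Finset.sum_eq_zero fun b _ => ?_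
        have h2 : up i j (d + 1) C ((Fin.consEquiv fun _ : Fin (d + 1) => ι) (p, a))
            ((Fin.consEquiv fun _ : Fin (d + 1) => ι) (q, b)) = 0 := by
          show (if _ ∧ _ then _ else _) = _
          rw [if_neg fun h => hq h.2]
        rw [h2, zero_mul]
      · intro h
        exact absurd (Finset.mem_univ _) h
    · rw [if_neg hp]
      refine Finset.sum_eq_zero fun q _ => Finset.sum_eq_zero fun b _ => ?_
      have h2 : up i j (d + 1) C ((Fin.consEquiv fun _ : Fin (d + 1) => ι) (p, a))
          ((Fin.consEquiv fun _ : Fin (d + 1) => ι) (q, b)) = 0 := by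
        show (if _ ∧ _ then _ else _) = _
        rw [if_neg fun h => hp h.1]
      rw [h2, zero_mul]
  simp only [h1]
  rw [Finset.sum_eq_single i]
  · simp only [if_true]
    rw [← Finset.sum_mul]
  · intro p _ hp
    simp [hp]
  · intro h
    exact absurd (Finset.mem_univ _) h

theorem Good.mul_var {F : Matrix ι ι Ω → Ω} (hF : Good F) (i j : ι) :
    Good fun x => F x * x i j := by
  obtain ⟨N, C, h⟩ := hF
  refine ⟨N + 1, fun d => up i j d C, fun x => ?_⟩
  have h0 : sm 0 (up i j 0 C) x = 0 := sm_zero 0 x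
  have h1 : ∑ d ∈ Finset.range (N + 1), sm d (up i j d C) x =
      ∑ d ∈ Finset.range N, sm d (C d) x * x i j := by
    rw [Finset.sum_range_succ', h0, add_zero]
    exact Finset.sum_congr rfl fun d _ => sm_up i j d C x
  show F x * x i j = ∑ d ∈ Finset.range (N + 1), sm d (up i j d C) x
  rw [h1, h x, Finset.sum_mul]

theorem p_coef : P_COEF := by
  intro Ω _ ι _ _ f
  have key : Good fun x : Matrix ι ι Ω => val x f := by
    induction f using MvPolynomial.induction_on with
    | C c =>
      have h : (fun x : Matrix ι ι Ω => val x (MvPolynomial.C c)) = fun _ => c := by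
        funext x
        simp [val]
      rw [h]
      exact Good.const c
    | add f g hf hg =>
      have h : (fun x : Matrix ι ι Ω => val x (f + g)) = fun x => val x f + val x g := by
        funext x
        simp [val]
      rw [h]
      exact hf.add hg
    | mul_X f p hf =>
      have h : (fun x : Matrix ι ι Ω => val x (f * MvPolynomial.X p)) =
          fun x => val x f * x p.1 p.2 := by
        funext x
        simp [val]
      rw [h]
      exact hf.mul_var p.1 p.2
  exact key

end Pool.Agent.W2helper24.QF
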